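import Pool.Agent.Helper30.LQ.St

/-!
# Project LQ, module SUR: the number of the surviving `k`
-/

set_option autoImplicit false

namespace Pool.Agent.Helper29.LQ

open Finset Filter Topology Asymptotics Pool.Agent.Helper30.LQ

private theorem evs (z₀ : ℝ) (x₁ : ℕ) : ∃ x₀ : ℕ, ∀ x : ℕ, x₀ ≤ x →
    x₁ ≤ x ∧ 3 ≤ x ∧ z₀ ≤ Real.log (Real.log x) ∧ 1 ≤ Real.log (Real.log (Real.log x)) ∧
    80 * Real.log (Real.log x) ^ 2 ≤ Real.log x ∧ Real.log x ≤ (x : ℝ) ^ (1 / 4 : ℝ) := by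
  have t1 : Tendsto (fun x : ℕ => (x : ℝ)) atTop atTop := tendsto_natCast_atTop_atTop
  have t2 : Tendsto (fun x : ℕ => Real.log (x : ℝ)) atTop atTop := Real.tendsto_log_atTop.comp t1
  have t3 : Tendsto (fun x : ℕ => Real.log (Real.log (x : ℝ))) atTop atTop :=
    Real.tendsto_log_atTop.comp t2
  have t4 : Tendsto (fun x : ℕ => Real.log (Real.log (Real.log (x : ℝ)))) atTop atTop :=
    Real.tendsto_log_atTop.comp t3
  have e3 : ∀ᶠ t : ℝ in atTop, 80 * Real.log t ^ 2 ≤ t := by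
    have h := (Real.isLittleO_pow_log_id_atTop (n := 2)).bound (show (0 : ℝ) < 1 / 80 by norm_num)
    filter_upwards [h, eventually_ge_atTop (0 : ℝ)] with t ht ht0
    rw [id, Real.norm_eq_abs, Real.norm_eq_abs, abs_of_nonneg (sq_nonneg _), abs_of_nonneg ht0] at ht
    linarith
  have e4 : ∀ᶠ t : ℝ in atTop, Real.log t ≤ t ^ (1 / 4 : ℝ) := by
    have h := (isLittleO_log_rpow_atTop (show (0 : ℝ) < 1 / 4 by norm_num)).bound one_pos
    filter_upwards [h, eventually_ge_atTop (0 : ℝ)] with t ht ht0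
    rw [one_mul, Real.norm_eq_abs, Real.norm_eq_abs, abs_of_nonneg (Real.rpow_nonneg ht0 _)] at ht
    exact (le_abs_self _).trans ht
  have h := (eventually_ge_atTop x₁).and ((eventually_ge_atTop 3).and
    ((t3.eventually_ge_atTop z₀).and ((t4.eventually_ge_atTop 1).and
      ((t2.eventually e3).and (t1.eventually e4)))))
  exact eventually_atTop.1 h

private theorem log_le_half {t : ℝ} (ht : 0 < t) : Real.log t ≤ t / 2 := by
  have h1 := Real.log_le_sub_one_of_pos (show 0 < t / 2 by positivity)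
  rw [Real.log_div ht.ne' two_ne_zero] at h1
  have h2 := Real.log_two_lt_d9
  linarith

private theorem log_yy (x : ℕ) : Real.log (yy x) =
    Real.log x * Real.log (Real.log (Real.log x)) / (20 * Real.log (Real.log x)) := by
  unfold yy
  rw [Real.log_exp]

private theorem exp_six {X : ℝ} (hX : 0 < X) : Real.exp (-(6 * Real.log X)) = (X ^ 6)⁻¹ := by
  rw [Real.exp_neg]
  congr 1
  have h : 6 * Real.log X = ((6 : ℕ) : ℝ) * Real.log X := by norm_num
  rw [h, Real.exp_nat_mul, Real.exp_log hX]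

/-- the estimates for the parameters -/
private theorem params {z₀ : ℝ} (hz₀ : 3 ≤ z₀) {x : ℕ} (hL2 : z₀ ≤ Real.log (Real.log x))
    (hL3 : 1 ≤ Real.log (Real.log (Real.log x)))
    (hE : 80 * Real.log (Real.log x) ^ 2 ≤ Real.log x) :
    720 ≤ Real.log x ∧ 4 * Real.log (Real.log x) ≤ Real.log (yy x) ∧
    Real.log (yy x) ≤ Real.log x ∧ z₀ ≤ yy x ∧
    1 ≤ Real.log (Real.log x) / Real.log (Real.log (Real.log x)) ∧
    Real.log (Real.log x) / Real.log (Real.log (Real.log x)) ≤ yy x ^ (1 / 4 : ℝ) ∧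
    6 * Real.log (Real.log x) ≤ 12 * (Real.log (Real.log x) / Real.log (Real.log (Real.log x))) *
      Real.log (Real.log (Real.log x) / Real.log (Real.log (Real.log x))) ∧
    Real.log x / Real.log (yy x) = 20 * (Real.log (Real.log x) / Real.log (Real.log (Real.log x))) ∧
    0 ≤ Real.log (Real.log (Real.log x) / Real.log (Real.log (Real.log x))) := by
  rw [log_yy]
  obtain ⟨X, hX⟩ : ∃ X : ℝ, X = Real.log x := ⟨_, rfl⟩
  obtain ⟨L, hL⟩ : ∃ L : ℝ, L = Real.log X := ⟨_, rfl⟩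
  obtain ⟨M, hM⟩ : ∃ M : ℝ, M = Real.log L := ⟨_, rfl⟩
  have hyy : yy x = Real.exp (X * M / (20 * L)) := by
    unfold yy
    rw [hM, hL, hX]
  rw [← hX] at hL2 hL3 hE ⊢
  rw [← hL] at hL2 hL3 hE ⊢
  rw [← hM] at hL3 ⊢
  have hL0 : 3 ≤ L := hz₀.trans hL2
  have hLp : 0 < L := by linarith
  have hMp : 0 < M := by linarith
  have hML : M ≤ L := by
    have := Real.log_le_sub_one_of_pos hLp
    rw [← hM] at this
    linarith
  have hX1 : 720 ≤ X := by nlinarith
  have hXp : 0 < X := by linarith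
  have a1 : 4 * L ≤ X * M / (20 * L) := by
    rw [le_div_iff₀ (by positivity)]
    nlinarith
  have a2 : X * M / (20 * L) ≤ X := by
    rw [div_le_iff₀ (by positivity)]
    nlinarith
  have a3 : z₀ ≤ yy x := by
    rw [hyy]
    have := Real.add_one_le_exp (X * M / (20 * L))
    linarith
  have a4 : 1 ≤ L / M := by
    rw [le_div_iff₀ hMp]
    linarith
  have a5 : L / M ≤ yy x ^ (1 / 4 : ℝ) := by
    rw [hyy, ← Real.exp_mul]
    have h1 : L / M ≤ L := div_le_self hLp.le hL3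
    have h2 := Real.add_one_le_exp (X * M / (20 * L) * (1 / 4))
    linarith
  have a6 : Real.log (L / M) = M - Real.log M := by
    rw [Real.log_div hLp.ne' hMp.ne', ← hM]
  have a7 : M / 2 ≤ Real.log (L / M) := by
    rw [a6]
    have := log_le_half hMp
    linarith
  refine ⟨hX1, a1, a2, a3, a4, a5, ?_, ?_, by linarith⟩
  · have h1 : L / M * (M / 2) ≤ L / M * Real.log (L / M) :=
      mul_le_mul_of_nonneg_left a7 (by positivity)
    have h2 : L / M * (M / 2) = L / 2 := by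
      field_simp
    rw [h2] at h1
    nlinarith
  · field_simp

open Classical in
private theorem partA {C z₀ : ℝ} (hC : 0 < C) (hz₀ : 3 ≤ z₀)
    (h : ∀ z w : ℝ, z₀ ≤ z → 1 ≤ w → w ≤ z ^ (1 / 4 : ℝ) → ∀ Y : ℕ, 1 ≤ Y →
      (((Icc 1 Y).filter (fun m => ∀ l : ℕ, l.Prime → l ∣ m → (l : ℝ) ≤ z)).card : ℝ) ≤
      C * Y * Real.log z * Real.exp (-((Real.log Y / Real.log z - 8 * w) * Real.log w)))
    {x K : ℕ} (hx : 3 ≤ x) (hL2 : z₀ ≤ Real.log (Real.log x))
    (hL3 : 1 ≤ Real.log (Real.log (Real.log x)))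
    (hE : 80 * Real.log (Real.log x) ^ 2 ≤ Real.log x) (hK : x ≤ K)
    (hK2 : (K : ℝ) ≤ x * Real.log x) :
    (((Icc 1 K).filter (fun m => ∀ l : ℕ, l.Prime → l ∣ m → (l : ℝ) ≤ yy x)).card : ℝ) ≤
      C * (x / Real.log x ^ 2) := by
  obtain ⟨b1, b2, b3, b4, b5, b6, b7, b8, b9⟩ := params hz₀ hL2 hL3 hE
  refine (h _ _ b4 b5 b6 K (by omega)).trans ?_
  obtain ⟨w, hw⟩ : ∃ w : ℝ, w = Real.log (Real.log x) / Real.log (Real.log (Real.log x)) := ⟨_, rfl⟩
  obtain ⟨X, hX⟩ : ∃ X : ℝ, X = Real.log x := ⟨_, rfl⟩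
  obtain ⟨y, hy⟩ : ∃ y : ℝ, y = Real.log (yy x) := ⟨_, rfl⟩
  rw [← hw] at b7 b8 b9 ⊢
  rw [← hy] at b2 b3 b8 ⊢
  rw [← hX] at b1 b2 b3 b7 b8 hL2 hK2 ⊢
  have hXp : 0 < X := by linarith
  have hx0 : (0 : ℝ) < x := by
    have : 0 < x := by omega
    exact_mod_cast this
  have hyp : 0 < y := by linarith
  have hKx : X ≤ Real.log K := by
    rw [hX]
    exact Real.log_le_log hx0 (by exact_mod_cast hK)
  have c1 : 12 * w ≤ Real.log K / y - 8 * w := by
    have : X / y ≤ Real.log K / y := div_le_div_of_nonneg_right hKx hyp.le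
    linarith
  have c2 : 6 * Real.log X ≤ (Real.log K / y - 8 * w) * Real.log w := by
    have := mul_le_mul_of_nonneg_right c1 b9
    linarith
  have c3 : Real.exp (-((Real.log K / y - 8 * w) * Real.log w)) ≤ (X ^ 6)⁻¹ := by
    rw [← exp_six hXp]
    exact Real.exp_le_exp.2 (by linarith)
  have hK0 : (0 : ℝ) ≤ K := Nat.cast_nonneg K
  calc C * K * y * Real.exp (-((Real.log K / y - 8 * w) * Real.log w))
      ≤ C * (x * X) * X * (X ^ 6)⁻¹ := by
        have d1 : C * K ≤ C * (x * X) := mul_le_mul_of_nonneg_left hK2 hC.le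
        have d2 : C * K * y ≤ C * (x * X) * X :=
          mul_le_mul d1 b3 hyp.le (by positivity)
        exact mul_le_mul d2 c3 (Real.exp_pos _).le (by positivity)
    _ = C * (x / X ^ 4) := by
        field_simp
    _ ≤ C * (x / X ^ 2) := by
        refine mul_le_mul_of_nonneg_left ?_ hC.le
        refine div_le_div_of_nonneg_left hx0.le (by positivity) ?_
        exact pow_le_pow_right₀ (by linarith) (by norm_num)

open Classical in
private theorem partB {CG CC z₀ : ℝ} (hCG : 0 < CG) (hCC : 0 < CC) (hz₀ : 3 ≤ z₀)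
    (hG : ∀ V : ℕ, 3 ≤ V →
      ∑ a ∈ (Icc 1 V).filter (fun a => ∀ l : ℕ, l.Prime → l ∣ a → l % 3 = 1), gg a / a ≤
        CG * √(Real.log V))
    {x : ℕ}
    (hN : ∀ a Y : ℕ, 1 ≤ a → x ≤ 2 * Y → (Y : ℝ) ≤ (x : ℝ) ^ (5 / 4 : ℝ) →
      (((Icc 1 Y).filter (fun p : ℕ => p.Prime ∧ ∀ l : ℕ, l.Prime → l % 3 = 1 → (l : ℝ) ≤ yy x →
      ¬ (l : ℤ) ∣ ((a : ℤ) * (p : ℤ)) ^ 2 - a * p + 1)).card : ℝ) ≤
        CC * (gg a * Y / (Real.log x * Real.log (yy x))))
    {K : ℕ} (hx : 3 ≤ x) (hL2 : z₀ ≤ Real.log (Real.log x))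
    (hL3 : 1 ≤ Real.log (Real.log (Real.log x)))
    (hE : 80 * Real.log (Real.log x) ^ 2 ≤ Real.log x)
    (hlx : Real.log x ≤ (x : ℝ) ^ (1 / 4 : ℝ))
    (hK2 : (K : ℝ) ≤ x * Real.log x) :
    (((Sv x K).filter (fun m => ¬ ∀ l : ℕ, l.Prime → l ∣ m → (l : ℝ) ≤ yy x)).card : ℝ) ≤
      2 * CC * CG * (K * √(Real.log (Real.log x)) / (Real.log x * Real.log (yy x))) := by
  obtain ⟨b1, b2, b3, b4, b5, b6, b7, b8, b9⟩ := params hz₀ hL2 hL3 hE
  obtain ⟨X, hX⟩ : ∃ X : ℝ, X = Real.log x := ⟨_, rfl⟩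
  obtain ⟨y, hy⟩ : ∃ y : ℝ, y = Real.log (yy x) := ⟨_, rfl⟩
  obtain ⟨V, hV⟩ : ∃ V : ℕ, V = ⌊2 * X⌋₊ := ⟨_, rfl⟩
  have hx0 : (0 : ℝ) < x := by
    have : 0 < x := by omega
    exact_mod_cast this
  have hXp : 0 < X := by rw [hX]; linarith
  have hX1 : 720 ≤ X := by rw [hX]; exact b1
  have hyp : 0 < y := by rw [hy]; linarith
  have hKV : (K : ℝ) ≤ (x : ℝ) ^ (5 / 4 : ℝ) := by
    have e1 : (x : ℝ) ^ (5 / 4 : ℝ) = x * (x : ℝ) ^ (1 / 4 : ℝ) := by
      have := Real.rpow_add hx0 1 (1 / 4)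
      rw [Real.rpow_one] at this
      rw [← this]
      norm_num
    rw [e1]
    exact hK2.trans (mul_le_mul_of_nonneg_left hlx hx0.le)
  have hVle : (V : ℝ) ≤ 2 * X := by
    rw [hV]
    exact Nat.floor_le (by positivity)
  -- the cover
  have hsub : (Sv x K).filter (fun m => ¬ ∀ l : ℕ, l.Prime → l ∣ m → (l : ℝ) ≤ yy x) ⊆
      (((Icc 1 V).filter (fun a => ∀ l : ℕ, l.Prime → l ∣ a → l % 3 = 1)).filter
        (fun a => x ≤ 2 * (K / a))).biUnion
      (fun a => ((Icc 1 (K / a)).filter (fun p : ℕ => p.Prime ∧ ∀ l : ℕ, l.Prime → l % 3 = 1 →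
        (l : ℝ) ≤ yy x → ¬ (l : ℤ) ∣ ((a : ℤ) * (p : ℤ)) ^ 2 - a * p + 1)).image
          (fun p => a * p)) := by
    intro k hk
    rw [Finset.mem_filter] at hk
    obtain ⟨hk1, hk2⟩ := hk
    unfold Sv at hk1
    rw [Finset.mem_filter, Finset.mem_Icc] at hk1
    obtain ⟨⟨hk3, hk4⟩, hk5, hk6⟩ := hk1
    push Not at hk2
    obtain ⟨p, hp, hpk, hpy⟩ := hk2
    have hpx : x < 2 * p := by
      by_contra hcon
      push Not at hcon
      by_cases h3 : p % 3 = 1
      · exact hk5 p hp (Or.inr ⟨h3, hpy, hcon⟩) hpk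
      · exact hk5 p hp (Or.inl ⟨h3, by omega⟩) hpk
    obtain ⟨a, ha⟩ := hpk
    have ha' : k = a * p := by rw [ha, mul_comm]
    have ha0 : 0 < a := by
      rcases Nat.eq_zero_or_pos a with h0 | h0
      · rw [h0, zero_mul] at ha'
        omega
      · exact h0
    have hpK : p ≤ K / a := by
      rw [Nat.le_div_iff_mul_le ha0]
      calc p * a = k := ha.symm
        _ ≤ K := hk4
    have haV : (a : ℝ) ≤ 2 * X := by
      have h1 : (x : ℝ) < 2 * p := by exact_mod_cast hpx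
      have h2 : (a : ℝ) * p ≤ K := by
        have : a * p ≤ K := by rw [← ha']; exact hk4
        exact_mod_cast this
      have h3 : (a : ℝ) * x ≤ 2 * X * x := by
        have h4 : (a : ℝ) * x ≤ a * (2 * p) := mul_le_mul_of_nonneg_left h1.le (Nat.cast_nonneg a)
        have h5 : (K : ℝ) ≤ x * X := by rw [hX]; exact hK2
        nlinarith
      exact le_of_mul_le_mul_right h3 hx0
    have haV' : a ≤ V := by
      rw [hV]
      exact Nat.le_floor haV
    have hax : a ≤ x := by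
      have h1 : 2 * X ≤ x := by
        have h2 := log_le_half hx0
        rw [← hX] at h2
        linarith
      exact_mod_cast haV.trans h1
    rw [Finset.mem_biUnion]
    refine ⟨a, ?_, ?_⟩
    · rw [Finset.mem_filter, Finset.mem_filter, Finset.mem_Icc]
      refine ⟨⟨⟨ha0, haV'⟩, fun l hl hla => ?_⟩, by omega⟩
      by_contra h3
      refine hk5 l hl (Or.inl ⟨h3, (Nat.le_of_dvd ha0 hla).trans hax⟩) ?_
      rw [ha']
      exact Dvd.dvd.mul_right hla p
    · rw [Finset.mem_image]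
      refine ⟨p, ?_, ha'.symm⟩
      rw [Finset.mem_filter, Finset.mem_Icc]
      refine ⟨⟨hp.one_lt.le, hpK⟩, hp, fun l hl hl3 hly hdvd => ?_⟩
      refine hk6 l hl hl3 hly ?_
      rw [ha']
      push_cast
      exact hdvd
  have hgg : ∀ a : ℕ, 0 ≤ gg a := fun a => (Real.exp_pos _).le
  have hstep : (((Sv x K).filter (fun m => ¬ ∀ l : ℕ, l.Prime → l ∣ m → (l : ℝ) ≤ yy x)).card : ℝ) ≤
      ∑ a ∈ (Icc 1 V).filter (fun a => ∀ l : ℕ, l.Prime → l ∣ a → l % 3 = 1),
        CC * K / (X * y) * (gg a / a) := by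
    calc (((Sv x K).filter (fun m => ¬ ∀ l : ℕ, l.Prime → l ∣ m → (l : ℝ) ≤ yy x)).card : ℝ)
        ≤ ((∑ a ∈ ((Icc 1 V).filter (fun a => ∀ l : ℕ, l.Prime → l ∣ a → l % 3 = 1)).filter
            (fun a => x ≤ 2 * (K / a)), ((Icc 1 (K / a)).filter (fun p : ℕ => p.Prime ∧
              ∀ l : ℕ, l.Prime → l % 3 = 1 → (l : ℝ) ≤ yy x →
              ¬ (l : ℤ) ∣ ((a : ℤ) * (p : ℤ)) ^ 2 - a * p + 1)).card : ℕ) : ℝ) := by
          refine Nat.cast_le.2 ((Finset.card_le_card hsub).trans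
            (Finset.card_biUnion_le.trans (Finset.sum_le_sum fun a _ => Finset.card_image_le)))
      _ ≤ ∑ a ∈ ((Icc 1 V).filter (fun a => ∀ l : ℕ, l.Prime → l ∣ a → l % 3 = 1)).filter
            (fun a => x ≤ 2 * (K / a)), CC * K / (X * y) * (gg a / a) := by
          rw [Nat.cast_sum]
          refine Finset.sum_le_sum fun a ha => ?_
          rw [Finset.mem_filter, Finset.mem_filter, Finset.mem_Icc] at ha
          obtain ⟨⟨⟨ha1, _⟩, _⟩, ha2⟩ := ha
          have ha0 : (0 : ℝ) < a := by exact_mod_cast ha1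
          have hdiv : ((K / a : ℕ) : ℝ) ≤ K / a := Nat.cast_div_le
          have h1 : ((K / a : ℕ) : ℝ) ≤ (x : ℝ) ^ (5 / 4 : ℝ) := by
            refine le_trans ?_ hKV
            exact_mod_cast Nat.div_le_self K a
          refine (hN a (K / a) ha1 ha2 h1).trans ?_
          rw [← hX, ← hy]
          have h2 : gg a * ((K / a : ℕ) : ℝ) ≤ gg a * (K / a) :=
            mul_le_mul_of_nonneg_left hdiv (hgg a)
          have h3 : gg a * ((K / a : ℕ) : ℝ) / (X * y) ≤ gg a * (K / a) / (X * y) :=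
            div_le_div_of_nonneg_right h2 (by positivity)
          have h4 := mul_le_mul_of_nonneg_left h3 hCC.le
          refine h4.trans (le_of_eq ?_)
          field_simp
      _ ≤ ∑ a ∈ (Icc 1 V).filter (fun a => ∀ l : ℕ, l.Prime → l ∣ a → l % 3 = 1),
            CC * K / (X * y) * (gg a / a) := by
          refine Finset.sum_le_sum_of_subset_of_nonneg (Finset.filter_subset _ _) fun a _ _ => ?_
          have := hgg a
          positivity
  have hV3 : 3 ≤ V := by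
    rw [hV]
    exact Nat.le_floor (by push_cast; linarith)
  have hGV := hG V hV3
  have hsq : √(Real.log V) ≤ 2 * √(Real.log (Real.log x)) := by
    have h1 : (2 : ℝ) * √(Real.log (Real.log x)) = √(4 * Real.log (Real.log x)) := by
      rw [Real.sqrt_mul (by norm_num), show (4 : ℝ) = 2 ^ 2 by norm_num, Real.sqrt_sq (by norm_num)]
    rw [h1]
    refine Real.sqrt_le_sqrt ?_
    have hV0 : (0 : ℝ) < V := by
      have : 0 < V := by omega
      exact_mod_cast this
    have h2 : Real.log V ≤ Real.log (2 * X) := Real.log_le_log hV0 hVle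
    rw [Real.log_mul two_ne_zero hXp.ne', hX] at h2
    have h3 := Real.log_two_lt_d9
    linarith
  rw [← Finset.mul_sum] at hstep
  refine hstep.trans ?_
  rw [← hX, ← hy]
  have hcoef : 0 ≤ CC * K / (X * y) := by positivity
  have h5 := mul_le_mul_of_nonneg_left (hGV.trans (mul_le_mul_of_nonneg_left hsq hCG.le)) hcoef
  rw [← hX] at h5
  refine h5.trans (le_of_eq ?_)
  ring

theorem hSUR (hT : StSMT) (hG : StGSM) (hC : StCNP) : StSUR := by
  classical
  obtain ⟨CT, hCT, z₀, hz₀, hT'⟩ := hT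
  obtain ⟨CG, hCG, hG'⟩ := hG
  obtain ⟨CC, hCC, x₁, hC'⟩ := hC
  obtain ⟨x₀, hx₀⟩ := evs z₀ x₁
  refine ⟨CT + 2 * CC * CG, by positivity, x₀, fun x K hx hxK hK2 => ?_⟩
  obtain ⟨g1, g2, g3, g4, g5, g6⟩ := hx₀ x hx
  have hA := partA hCT hz₀ hT' g2 g3 g4 g5 hxK hK2
  have hB := partB hCG hCC hz₀ hG' (fun a Y => hC' x a Y g1) g2 g3 g4 g5 g6 hK2
  obtain ⟨b1, b2, b3, b4, b5, b6, b7, b8, b9⟩ := params hz₀ g3 g4 g5
  have hsplit : ((Sv x K).card : ℝ) ≤
      (((Icc 1 K).filter (fun m => ∀ l : ℕ, l.Prime → l ∣ m → (l : ℝ) ≤ yy x)).card : ℝ) +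
      (((Sv x K).filter (fun m => ¬ ∀ l : ℕ, l.Prime → l ∣ m → (l : ℝ) ≤ yy x)).card : ℝ) := by
    rw [← Nat.cast_add, Nat.cast_le]
    rw [← Finset.card_filter_add_card_filter_not (s := Sv x K)
      (fun m => ∀ l : ℕ, l.Prime → l ∣ m → (l : ℝ) ≤ yy x)]
    refine Nat.add_le_add_right (Finset.card_le_card ?_) _
    intro k hk
    rw [Finset.mem_filter] at hk ⊢
    refine ⟨?_, hk.2⟩
    have h1 := hk.1
    unfold Sv at h1
    exact (Finset.mem_filter.1 h1).1
  have p1 : 0 ≤ K * √(Real.log (Real.log x)) / (Real.log x * Real.log (yy x)) := by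
    have h1 : 0 < Real.log x := by linarith
    have h2 : 0 < Real.log (yy x) := by linarith
    positivity
  have p2 : (0 : ℝ) ≤ x / Real.log x ^ 2 := by positivity
  have p3 : 0 ≤ CT * (K * √(Real.log (Real.log x)) / (Real.log x * Real.log (yy x))) :=
    mul_nonneg hCT.le p1
  have p4 : 0 ≤ 2 * CC * CG * (x / Real.log x ^ 2) := mul_nonneg (by positivity) p2
  calc ((Sv x K).card : ℝ) ≤ _ := hsplit
    _ ≤ CT * (x / Real.log x ^ 2) +
      2 * CC * CG * (K * √(Real.log (Real.log x)) / (Real.log x * Real.log (yy x))) :=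
        add_le_add hA hB
    _ ≤ _ := by
        have e : (CT + 2 * CC * CG) * (K * √(Real.log (Real.log x)) /
            (Real.log x * Real.log (yy x)) + x / Real.log x ^ 2) =
          (CT * (x / Real.log x ^ 2) +
            2 * CC * CG * (K * √(Real.log (Real.log x)) / (Real.log x * Real.log (yy x)))) +
          (CT * (K * √(Real.log (Real.log x)) / (Real.log x * Real.log (yy x))) +
            2 * CC * CG * (x / Real.log x ^ 2)) := by ring
        rw [e]
        linarith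

end Pool.Agent.Helper29.LQ
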